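import Pool.Agent.W84.FP.Defs
import Pool.Agent.W78.GA.Basic

/-!
# The function `Fq` is invariant
-/

set_option autoImplicit false

namespace Pool.Agent.W320.FP

open Finset Filter
open Pool.Agent.H376R2.MR
open Pool.Agent.W78.GA Pool.Agent.W78.GC Pool.Agent.W84.FP

theorem dvd_two {q p p' n : ℕ} (hp : p.Prime) (hp' : p'.Prime) (h : Nat.Coprime p q ∧ p % 4 = 1)
    (h' : Nat.Coprime p' q ∧ p' % 4 = 1) (hn : n ∣ p * p') : Nat.Coprime n q ∧ n % 4 = 1 := by
  obtain ⟨a, b, ha, hb, rfl⟩ := (Nat.dvd_mul).1 hn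
  have ha' : Nat.Coprime a q ∧ a % 4 = 1 := by
    rcases (Nat.dvd_prime hp).1 ha with h1 | h1
    · rw [h1]; exact ⟨Nat.coprime_one_left q, rfl⟩
    · rw [h1]; exact h
  have hb' : Nat.Coprime b q ∧ b % 4 = 1 := by
    rcases (Nat.dvd_prime hp').1 hb with h1 | h1
    · rw [h1]; exact ⟨Nat.coprime_one_left q, rfl⟩
    · rw [h1]; exact h'
  refine ⟨Nat.Coprime.mul_left ha'.1 hb'.1, ?_⟩
  rw [Nat.mul_mod, ha'.2, hb'.2]

theorem colour {q n : ℕ} (h4 : 4 ∣ q) {v u z : Gi} (hv : c1 q v) (hn : Nat.Coprime n q)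
    (hn4 : n % 4 = 1) (h : v * u = (n : Gi) * z) : c1 q u ↔ c1 q z := by
  obtain ⟨⟨y', hy⟩, hx, ⟨x', hx4⟩⟩ := hv
  obtain ⟨q', hq'⟩ := h4
  have hre := congrArg QuadraticAlgebra.re h
  have him := congrArg QuadraticAlgebra.im h
  simp only [QuadraticAlgebra.re_mul, QuadraticAlgebra.im_mul, QuadraticAlgebra.re_natCast,
    QuadraticAlgebra.im_natCast] at hre him
  have hre' : v.re * u.re = n * z.re + q * (y' * u.im) := by
    rw [hy] at hre
    linarith
  have him' : v.re * u.im = n * z.im + q * (-(y' * u.re)) := by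
    rw [hy] at him
    linarith
  have hnq : IsCoprime (n : ℤ) (q : ℤ) := Nat.isCoprime_iff_coprime.2 hn
  have h1 : (q : ℤ) ∣ u.im ↔ (q : ℤ) ∣ z.im := by
    constructor
    · rintro ⟨w, hw⟩
      have : (q : ℤ) ∣ n * z.im := ⟨v.re * w + y' * u.re, by rw [hw] at him'; linarith⟩
      exact hnq.symm.dvd_of_dvd_mul_left this
    · rintro ⟨w, hw⟩
      have : (q : ℤ) ∣ v.re * u.im := ⟨n * w - y' * u.re, by rw [hw] at him'; linarith⟩
      exact hx.symm.dvd_of_dvd_mul_left this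
  have h2 : IsCoprime u.re (q : ℤ) ↔ IsCoprime z.re (q : ℤ) := by
    have e1 : IsCoprime (v.re * u.re) (q : ℤ) ↔ IsCoprime (n * z.re) (q : ℤ) := by
      rw [hre']
      exact IsCoprime.add_mul_left_left_iff
    rw [IsCoprime.mul_left_iff, IsCoprime.mul_left_iff] at e1
    tauto
  have h3 : (4 : ℤ) ∣ u.re - 1 ↔ (4 : ℤ) ∣ z.re - 1 := by
    obtain ⟨n', hn'⟩ : ∃ n' : ℤ, (n : ℤ) = 1 + 4 * n' := ⟨(n / 4 : ℕ), by omega⟩
    have hx' : v.re = 1 + 4 * x' := by linarith
    have hq4 : (q : ℤ) = 4 * q' := by rw [hq']; push_cast; ring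
    have key : u.re - z.re = 4 * (n' * z.re - x' * u.re + q' * (y' * u.im)) := by
      rw [hx', hn', hq4] at hre'
      linarith
    constructor
    · rintro ⟨w, hw⟩
      exact ⟨w - (n' * z.re - x' * u.re + q' * (y' * u.im)), by linarith⟩
    · rintro ⟨w, hw⟩
      exact ⟨w + (n' * z.re - x' * u.re + q' * (y' * u.im)), by linarith⟩
  unfold c1
  rw [h1, h2, h3]

theorem twq : S_TWQ := by
  classical
  intro q hq h4 Ap Bp M E ρ ϖ hE hAB hc
  have hD : (0 : ℤ) ^ 2 < 4 * 1 := by norm_num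
  refine ⟨⟨?_, ?_⟩, ?_⟩
  · intro z
    unfold Fq
    split_ifs
    · rcases gl_eq z with h | h <;> rw [h] <;> simp
    · simp
  · intro m n u z hm hnm hu hz heq
    obtain ⟨p, p', hp, hp', hmp, _, _⟩ := hE.fac m hm
    have pp := (hE.prA p hp).1
    have pp' := (hE.prB p' hp').1
    have hn : Nat.Coprime n q ∧ n % 4 = 1 :=
      dvd_two pp pp' (hAB p (Or.inl hp)) (hAB p' (Or.inr hp')) (by rw [← hmp]; exact hnm)
    have hcol := colour h4 (hc m hm) hn.1 hn.2 heq
    have hgl : gl u = gl z := by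
      have hnm' := (hE.elt m hm).1
      have hm0 : m ≠ 0 := by rw [hmp]; exact Nat.mul_ne_zero pp.ne_zero pp'.ne_zero
      have hϖ : ϖ m ≠ 0 := by
        intro h
        rw [h, nm_zero] at hnm'
        exact hm0 hnm'.symm
      have hn0 : 0 < n := Nat.pos_of_ne_zero (fun h => by rw [h] at hn; omega)
      have e1 := congrArg gl heq
      rw [gl_mul hD hϖ (prim_ne_zero hu), gl_natCast_mul hn0 hD (prim_ne_zero hz)] at e1
      have e2 : gl (ϖ m) = 1 := by
        unfold gl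
        rw [hnm', hmp, lam_mul pp.ne_zero pp'.ne_zero, lam_prime pp, lam_prime pp']
        norm_num
      rw [e2, one_mul] at e1
      exact e1
    unfold Fq
    by_cases h : c1 q u
    · rw [if_pos h, if_pos (hcol.1 h), hgl]
    · rw [if_neg h, if_neg (fun h' => h (hcol.2 h'))]
  · intro Y k
    unfold GF Gc DPG cball
    rw [Finset.sum_filter]
    apply Finset.sum_congr rfl
    intro z _
    unfold Fq
    by_cases h : c1 q z
    · simp only [if_pos h]
    · simp only [if_neg h, Int.cast_zero, zero_mul]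

end Pool.Agent.W320.FP
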